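import Pool.Agent.R33.SIG

/-!
# MP_d14146_co: every finite connected graph has an `ℓ₁`-embeddable SIG-metric

Order the vertices so that every vertex but the first (the root) has an earlier neighbour, and let
the parent of a vertex be its earliest neighbour.  Let `D j` be the set of descendants of `j`, and
for an edge `jk` of the graph outside this tree, with `j` before `k`, let `S j k = D j ∪ D k`; for
all other pairs `(j, k)` let `S j k = D j`.  The metric is the sum of the cut semi-metrics of
all the sets `S j k`, the one of `S j k` with weight `(n + 1) ^ (rank of j)`.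
-/

set_option autoImplicit false

namespace Pool.Agent.Results.MP_d14146_co.EverySIGInL1

open Pool.Agent.R33.SIG Finset

/-- A metric on `V`. -/
structure IsMetric {V : Type} (d : V → V → ℝ) : Prop where
  nonneg : ∀ i j, 0 ≤ d i j
  eq_zero_iff : ∀ i j, d i j = 0 ↔ i = j
  symm : ∀ i j, d i j = d j i
  triangle : ∀ i j k, d i k ≤ d i j + d j k

/-- The radius of influence of the vertex `i`: the smallest distance from `i` to another vertex. -/
noncomputable def radius {V : Type} (d : V → V → ℝ) (i : V) : ℝ :=
  ⨅ j : {j : V // j ≠ i}, d i j.1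

/-- `d` is a SIG-metric for the graph `G`. -/
structure IsSIGMetric {V : Type} (G : SimpleGraph V) (d : V → V → ℝ) : Prop where
  metric : IsMetric d
  adj : ∀ i j, G.Adj i j → d i j < radius d i + radius d j
  nonadj : ∀ i j, i ≠ j → ¬ G.Adj i j → radius d i + radius d j ≤ d i j

/-- `(V, d)` is `ℓ₁`-embeddable: for some `m ≥ 1` there are points `X i` of `ℝ ^ m` such that
`d i j` is the `ℓ₁`-distance of `X i` and `X j`. -/
def L1Embeddable {V : Type} (d : V → V → ℝ) : Prop :=
  ∃ m : ℕ, 1 ≤ m ∧ ∃ X : V → Fin m → ℝ, ∀ i j, ∑ k, |X i k - X j k| = d i j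

variable {V : Type} [Fintype V] {G : SimpleGraph V} (O : Order G)

theorem radius_le (d : V → V → ℝ) {i j : V} (h : j ≠ i) : radius d i ≤ d i j :=
  ciInf_le (Set.finite_range fun j : {j : V // j ≠ i} => d i j.1).bddBelow ⟨j, h⟩

theorem le_radius (hV : 2 ≤ Fintype.card V) (d : V → V → ℝ) {i : V} {r : ℝ}
    (h : ∀ j, j ≠ i → r ≤ d i j) : r ≤ radius d i := by
  haveI : Nontrivial V := Fintype.one_lt_card_iff_nontrivial.1 (by omega)
  obtain ⟨j, hj⟩ := exists_ne i
  haveI : Nonempty {j : V // j ≠ i} := ⟨⟨j, hj⟩⟩
  exact le_ciInf fun j => h j.1 j.2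

theorem radius_eq (hV : 2 ≤ Fintype.card V) {v : V} (hv : v ≠ O.root) :
    radius O.dd v = O.dd v (O.p v) := by
  apply le_antisymm
  · apply radius_le
    intro h
    have := O.p_lt v hv
    rw [h] at this
    exact lt_irrefl _ this
  · exact le_radius hV _ fun j hj => O.rho_le_any hv hj

theorem dd_pos {i j : V} (h : i ≠ j) : 0 < O.dd i j := by
  have key : ∀ a b : V, O.rk a < O.rk b → 0 < O.dd b a := fun a b hab => by
    have h1 := O.rho_le hab
    have h2 := O.two_w_le (O.ne_root_of_lt hab)
    have h3 := O.w_pos b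
    linarith
  rcases lt_trichotomy (O.rk i) (O.rk j) with h1 | h1 | h1
  · rw [O.dd_symm]; exact key _ _ h1
  · exact absurd (O.inj h1) h
  · exact key _ _ h1

theorem radius_pos (hV : 2 ≤ Fintype.card V) (v : V) : 0 < radius O.dd v := by
  haveI : Nontrivial V := Fintype.one_lt_card_iff_nontrivial.1 (by omega)
  obtain ⟨j, hj⟩ := exists_ne v
  haveI : Nonempty {j : V // j ≠ v} := ⟨⟨j, hj⟩⟩
  obtain ⟨k, hk⟩ := exists_eq_ciInf_of_finite (f := fun j : {j : V // j ≠ v} => O.dd v j.1)
  unfold radius
  rw [← hk]
  exact dd_pos O (Ne.symm k.2)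

theorem metric : IsMetric O.dd where
  nonneg := O.dd_nonneg
  eq_zero_iff i j := by
    constructor
    · intro h
      by_contra hne
      exact absurd h (dd_pos O hne).ne'
    · rintro rfl
      simp [Order.dd]
  symm := O.dd_symm
  triangle i j k := O.dd_tri i j k

theorem sig (hV : 2 ≤ Fintype.card V) : IsSIGMetric G O.dd where
  metric := metric O
  adj := by
    have key : ∀ u s : V, O.rk u < O.rk s → G.Adj u s →
        O.dd s u < radius O.dd s + radius O.dd u := by
      intro u s h ha
      have hs := O.ne_root_of_lt h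
      rw [radius_eq O hV hs]
      by_cases hup : u = O.p s
      · have := radius_pos O hV u
        rw [← hup]
        linarith
      · obtain ⟨h1, h2⟩ := O.adj_lt h ha hup
        rw [radius_eq O hV h1]
        exact h2
    intro i j hij
    rcases lt_trichotomy (O.rk i) (O.rk j) with h1 | h1 | h1
    · have := key i j h1 hij
      rw [O.dd_symm]; linarith
    · exact absurd (O.inj h1) hij.ne
    · exact key j i h1 hij.symm
  nonadj := by
    have key : ∀ u s : V, O.rk u < O.rk s → ¬ G.Adj u s →
        radius O.dd s + radius O.dd u ≤ O.dd s u := by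
      intro u s h ha
      rw [radius_eq O hV (O.ne_root_of_lt h)]
      exact O.nonadj_ge h ha _ fun v hv => radius_le _ hv
    intro i j hij hna
    rcases lt_trichotomy (O.rk i) (O.rk j) with h1 | h1 | h1
    · have := key i j h1 hna
      rw [O.dd_symm]; linarith
    · exact absurd (O.inj h1) hij
    · exact key j i h1 fun h2 => hna h2.symm

theorem l1 (hV : 2 ≤ Fintype.card V) : L1Embeddable O.dd := by
  classical
  refine ⟨Fintype.card (V × V), ?_, fun v c =>
    O.w ((Fintype.equivFin (V × V)).symm c).1 *
      O.f ((Fintype.equivFin (V × V)).symm c).1 ((Fintype.equivFin (V × V)).symm c).2 v, ?_⟩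
  · rw [Fintype.card_prod]
    nlinarith
  · intro i j
    rw [Order.dd, ← Fintype.sum_prod_type' (f := fun a b => O.w a * |O.f a b i - O.f a b j|),
      ← (Fintype.equivFin (V × V)).symm.sum_comp]
    refine sum_congr rfl fun c _ => ?_
    rw [← mul_sub, abs_mul, abs_of_pos (O.w_pos _)]

/-- Every finite connected simple graph with at least two vertices has a SIG-metric that is
`ℓ₁`-embeddable. -/
theorem result (V : Type) [Fintype V] (G : SimpleGraph V) (hV : 2 ≤ Fintype.card V)
    (hG : G.Connected) : ∃ d : V → V → ℝ, IsSIGMetric G d ∧ L1Embeddable d := by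
  obtain ⟨O⟩ := exists_order hG
  exact ⟨O.dd, sig O hV, l1 O hV⟩

end Pool.Agent.Results.MP_d14146_co.EverySIGInL1
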